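import Mathlib

set_option autoImplicit false

/-!
Existence of derivations of a field of characteristic zero with prescribed values on an
algebraically independent family.
-/

namespace Pool.Agent.H24.DerExt

open TensorProduct

theorem exists_der_basis {L : Type} [Field L] [CharZero L] [Algebra ℚ L] {ι : Type} (x : ι → L)
    (hx : IsTranscendenceBasis ℚ x) (f : ι → L) :
    ∃ D : Derivation ℚ L L, ∀ i, D (x i) = f i := by
  classical
  let S := MvPolynomial ι ℚ
  let : Algebra S L := (MvPolynomial.aeval (R := ℚ) x).toRingHom.toAlgebra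
  have : IsScalarTower ℚ S L := IsScalarTower.of_algebraMap_eq fun r => by
    exact ((MvPolynomial.aeval (R := ℚ) x).commutes r).symm
  have hinj : Function.Injective (algebraMap S L) := hx.1
  have : FaithfulSMul S L := (faithfulSMul_iff_algebraMap_injective S L).2 hinj
  have halg : Algebra.IsAlgebraic S L := by
    have h1 := hx.isAlgebraic
    have h2 : (algebraMap S L).range = (Algebra.adjoin ℚ (Set.range x)).toSubring := by
      rw [Algebra.adjoin_range_eq_range_aeval]
      rfl
    constructor
    intro a
    obtain ⟨p, hp0, hp⟩ := h1.isAlgebraic a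
    -- lift the coefficients
    have hsurj : ∀ y : Algebra.adjoin ℚ (Set.range x), ∃ s : S, algebraMap S L s = y := by
      rintro ⟨y, hy⟩
      have : y ∈ (algebraMap S L).range := by
        rw [h2]; exact hy
      obtain ⟨s, hs⟩ := this
      exact ⟨s, hs⟩
    choose g hg using hsurj
    refine ⟨∑ i ∈ p.support, Polynomial.monomial i (g (p.coeff i)), ?_, ?_⟩
    · intro h0
      apply hp0
      ext i
      have h3 := congrArg (fun q => algebraMap S L (Polynomial.coeff q i)) h0
      simp only [Polynomial.finsetSum_coeff, Polynomial.coeff_monomial, Polynomial.coeff_zero,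
        map_zero] at h3
      rw [Finset.sum_ite_eq'] at h3
      by_cases hi : i ∈ p.support
      · rw [if_pos hi, hg] at h3
        rw [h3]
        simp
      · rw [Polynomial.notMem_support_iff] at hi
        rw [hi]
        simp
    · rw [map_sum]
      conv_rhs => rw [← hp]
      conv_rhs => rw [p.as_sum_support, map_sum]
      refine Finset.sum_congr rfl fun i _ => ?_
      rw [Polynomial.aeval_monomial, Polynomial.aeval_monomial, hg]
      rfl
  let := FractionRing.liftAlgebra S L
  have : IsScalarTower S (FractionRing S) L := FractionRing.isScalarTower_liftAlgebra S L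
  have : Algebra.IsAlgebraic (FractionRing S) L :=
    (IsFractionRing.comap_isAlgebraic_iff (A := S) (K := FractionRing S) (C := L)).1 halg
  have : CharZero (FractionRing S) := by
    have : CharZero S := inferInstance
    exact IsFractionRing.charZero S
  have : Algebra.FormallyEtale S (FractionRing S) :=
    Algebra.FormallyEtale.of_isLocalization (nonZeroDivisors S)
  have : Algebra.FormallyEtale (FractionRing S) L := Algebra.FormallyEtale.of_isSeparable _ _
  have : Algebra.FormallyEtale S L := Algebra.FormallyEtale.comp S (FractionRing S) L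
  let D0 : Derivation ℚ S L := MvPolynomial.mkDerivation ℚ f
  let l : L ⊗[S] Ω[S⁄ℚ] →ₗ[L] L := LinearMap.liftBaseChange L D0.liftKaehlerDifferential
  let e := KaehlerDifferential.tensorKaehlerEquivOfFormallyEtale ℚ S L
  let D : Derivation ℚ L L := (l.comp e.symm.toLinearMap).compDer (KaehlerDifferential.D ℚ L)
  refine ⟨D, fun i => ?_⟩
  have h1 : x i = algebraMap S L (MvPolynomial.X i) := by
    change _ = MvPolynomial.aeval x (MvPolynomial.X i)
    simp
  rw [h1]
  change l (e.symm (KaehlerDifferential.D ℚ L (algebraMap S L (MvPolynomial.X i)))) = _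
  rw [KaehlerDifferential.tensorKaehlerEquivOfFormallyEtale_symm_D_algebraMap]
  change l (1 ⊗ₜ _) = _
  rw [LinearMap.liftBaseChange_tmul]
  change (1 : L) • D0.liftKaehlerDifferential (KaehlerDifferential.D ℚ S (MvPolynomial.X i)) = _
  rw [Derivation.liftKaehlerDifferential_comp_D, one_smul]
  exact MvPolynomial.mkDerivation_X ℚ f i

theorem exists_der {L : Type} [Field L] [CharZero L] [Algebra ℚ L] {ι : Type} (c : ι → L)
    (hc : AlgebraicIndependent ℚ c) (f : ι → L) :
    ∃ D : Derivation ℚ L L, ∀ i, D (c i) = f i := by
  classical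
  obtain ⟨t, ht, hb⟩ := exists_isTranscendenceBasis_superset (R := ℚ) (s := Set.range c)
    hc.coe_range
  obtain ⟨D, hD⟩ := exists_der_basis ((↑) : t → L) hb
    (fun y => if h : ∃ i, c i = y then f h.choose else 0)
  refine ⟨D, fun i => ?_⟩
  have h1 := hD ⟨c i, ht ⟨i, rfl⟩⟩
  have h2 : ∃ i', c i' = c i := ⟨i, rfl⟩
  rw [dif_pos h2] at h1
  have h3 : h2.choose = i := hc.injective h2.choose_spec
  rw [h3] at h1
  exact h1

end Pool.Agent.H24.DerExt
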