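import Mathlib
import Pool.Agent.Lib.QMOrbit
import Pool.Agent.H24.DerExt

set_option autoImplicit false

/-!
Derivations of the coefficient field and monomial valuations.
-/

namespace Pool.Agent.H24.QMDer

open Finset Pool.Agent.QMVal

/-- coefficientwise derivation of `ℂ[x]` -/
noncomputable def d1 (D : Derivation ℤ ℂ ℂ) :
    Derivation ℤ (Polynomial ℂ) (Polynomial ℂ) :=
  letI : Differential ℂ := ⟨D⟩
  Differential.mapCoeffs

theorem coeff_d1 (D : Derivation ℤ ℂ ℂ) (p : Polynomial ℂ) (i : ℕ) :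
    (d1 D p).coeff i = D (p.coeff i) := rfl

/-- coefficientwise derivation of `ℂ[x][y]` -/
noncomputable def d2 (D : Derivation ℤ ℂ ℂ) :
    Derivation ℤ (Polynomial (Polynomial ℂ)) (Polynomial (Polynomial ℂ)) :=
  letI : Differential (Polynomial ℂ) := ⟨d1 D⟩
  Differential.mapCoeffs

theorem coeff_d2 (D : Derivation ℤ ℂ ℂ) (G : Polynomial (Polynomial ℂ)) (j : ℕ) :
    (d2 D G).coeff j = d1 D (G.coeff j) := rfl

theorem pc_d2 (D : Derivation ℤ ℂ ℂ) (G : Polynomial (Polynomial ℂ)) (i j : ℕ) :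
    pc (d2 D G) i j = D (pc G i j) := rfl

/-- coefficientwise derivation of `ℂ⟦x⟧`, as an additive map -/
noncomputable def dps (D : Derivation ℤ ℂ ℂ) : PowerSeries ℂ →+ PowerSeries ℂ where
  toFun := fun f => PowerSeries.mk fun n => D (PowerSeries.coeff n f)
  map_zero' := by ext n; simp
  map_add' := fun f g => by ext n; simp

theorem coeff_dps (D : Derivation ℤ ℂ ℂ) (f : PowerSeries ℂ) (n : ℕ) :
    PowerSeries.coeff n (dps D f) = D (PowerSeries.coeff n f) := by
  change PowerSeries.coeff n (PowerSeries.mk fun n => D (PowerSeries.coeff n f)) = _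
  simp

theorem dps_mul (D : Derivation ℤ ℂ ℂ) (f g : PowerSeries ℂ) :
    dps D (f * g) = f * dps D g + g * dps D f := by
  ext n
  rw [coeff_dps, map_add, PowerSeries.coeff_mul, PowerSeries.coeff_mul, mul_comm g,
    PowerSeries.coeff_mul, map_sum, ← Finset.sum_add_distrib]
  refine Finset.sum_congr rfl fun p _ => ?_
  rw [Derivation.leibniz, coeff_dps, coeff_dps]
  simp only [smul_eq_mul]
  ring

/-- coefficientwise application, underlying function -/
noncomputable def mapF {A : Type} [CommRing A] (φ : A →+ A) (F : Polynomial A) : Polynomial A :=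
  ∑ j ∈ F.support, Polynomial.monomial j (φ (F.coeff j))

theorem coeff_mapF {A : Type} [CommRing A] (φ : A →+ A) (F : Polynomial A) (j : ℕ) :
    (mapF φ F).coeff j = φ (F.coeff j) := by
  unfold mapF
  rw [Polynomial.finsetSum_coeff]
  simp only [Polynomial.coeff_monomial]
  rw [Finset.sum_ite_eq']
  split_ifs with h
  · rfl
  · rw [Polynomial.notMem_support_iff] at h
    rw [h, map_zero]

/-- coefficientwise derivation of `ℂ⟦x⟧[Y]` -/
noncomputable def dF (D : Derivation ℤ ℂ ℂ) :
    Polynomial (PowerSeries ℂ) →+ Polynomial (PowerSeries ℂ) where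
  toFun := mapF (dps D)
  map_zero' := by ext1 j; rw [coeff_mapF]; simp
  map_add' := fun A B => by
    ext1 j
    rw [coeff_mapF, Polynomial.coeff_add, Polynomial.coeff_add, coeff_mapF, coeff_mapF, map_add]

theorem coeff_dF (D : Derivation ℤ ℂ ℂ) (F : Polynomial (PowerSeries ℂ)) (j : ℕ) :
    (dF D F).coeff j = dps D (F.coeff j) := coeff_mapF _ _ _

theorem dF_mul (D : Derivation ℤ ℂ ℂ) (A B : Polynomial (PowerSeries ℂ)) :
    dF D (A * B) = A * dF D B + B * dF D A := by
  ext1 j
  rw [coeff_dF, Polynomial.coeff_add, Polynomial.coeff_mul, Polynomial.coeff_mul, mul_comm B,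
    Polynomial.coeff_mul, map_sum, ← Finset.sum_add_distrib]
  refine Finset.sum_congr rfl fun p _ => ?_
  rw [dps_mul, coeff_dF, coeff_dF]
  ring

theorem dps_one (D : Derivation ℤ ℂ ℂ) : dps D 1 = 0 := by
  ext n
  rw [coeff_dps, PowerSeries.coeff_one]
  split_ifs <;> simp

theorem cf_dF (D : Derivation ℤ ℂ ℂ) (F : Polynomial (PowerSeries ℂ)) (i j : ℕ) :
    cf (dF D F) i j = D (cf F i j) := by
  unfold cf
  rw [coeff_dF, coeff_dps]

theorem dF_C (D : Derivation ℤ ℂ ℂ) (p : PowerSeries ℂ) :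
    dF D (Polynomial.C p) = Polynomial.C (dps D p) := by
  ext j
  rw [coeff_dF]
  rw [Polynomial.coeff_C, Polynomial.coeff_C]
  split_ifs <;> simp

theorem dF_X (D : Derivation ℤ ℂ ℂ) : dF D Polynomial.X = 0 := by
  ext j
  rw [coeff_dF, Polynomial.coeff_X]
  split_ifs
  · rw [dps_one]; simp
  · simp

theorem d2_C (D : Derivation ℤ ℂ ℂ) (p : Polynomial ℂ) :
    d2 D (Polynomial.C p) = Polynomial.C (d1 D p) := by
  ext j
  rw [coeff_d2]
  rw [Polynomial.coeff_C, Polynomial.coeff_C]
  split_ifs <;> simp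

theorem d2_X (D : Derivation ℤ ℂ ℂ) : d2 D Polynomial.X = 0 := by
  ext j
  rw [coeff_d2, Polynomial.coeff_X]
  split_ifs
  · rw [Derivation.map_one_eq_zero]; simp
  · simp

theorem dps_coe (D : Derivation ℤ ℂ ℂ) (p : Polynomial ℂ) :
    dps D (p : PowerSeries ℂ) = ((d1 D p : Polynomial ℂ) : PowerSeries ℂ) := by
  ext n
  rw [coeff_dps, Polynomial.coeff_coe, Polynomial.coeff_coe, coeff_d1]

/-- The chain rule. -/
theorem chain (D : Derivation ℤ ℂ ℂ) (ξ : PowerSeries ℂ) (G : Polynomial (Polynomial ℂ)) :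
    dF D (ex ξ G) = ex ξ (d2 D G) +
      Polynomial.C (dps D ξ) * Polynomial.derivative (ex ξ G) := by
  have hmul : ∀ A B : Polynomial (Polynomial ℂ),
      dF D (ex ξ A) = ex ξ (d2 D A) + Polynomial.C (dps D ξ) * Polynomial.derivative (ex ξ A) →
      dF D (ex ξ B) = ex ξ (d2 D B) + Polynomial.C (dps D ξ) * Polynomial.derivative (ex ξ B) →
      dF D (ex ξ (A * B)) = ex ξ (d2 D (A * B)) +
        Polynomial.C (dps D ξ) * Polynomial.derivative (ex ξ (A * B)) := by
    intro A B hA hB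
    rw [map_mul, dF_mul, Derivation.leibniz, hA, hB, Polynomial.derivative_mul]
    simp only [smul_eq_mul, map_add, map_mul]
    ring
  have hX : dF D (ex ξ Polynomial.X) = ex ξ (d2 D Polynomial.X) +
      Polynomial.C (dps D ξ) * Polynomial.derivative (ex ξ Polynomial.X) := by
    rw [ex_X, map_add, dF_C, dF_X, d2_X, map_zero]
    simp
  have hC : ∀ p : Polynomial ℂ, dF D (ex ξ (Polynomial.C p)) = ex ξ (d2 D (Polynomial.C p)) +
      Polynomial.C (dps D ξ) * Polynomial.derivative (ex ξ (Polynomial.C p)) := by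
    intro p
    rw [ex_C, dF_C, d2_C, ex_C, dps_coe]
    simp
  induction G using Polynomial.induction_on with
  | C p => exact hC p
  | add A B hA hB =>
    rw [map_add, map_add, hA, hB, map_add, map_add, map_add]
    ring
  | monomial n p hn =>
    rw [pow_succ, ← mul_assoc]
    exact hmul _ _ hn hX

theorem cf_chain (D : Derivation ℤ ℂ ℂ) (ξ : PowerSeries ℂ) (e : ℕ)
    (hξ : dps D ξ = PowerSeries.X ^ e) (G : Polynomial (Polynomial ℂ)) (i j : ℕ) :
    D (cf (ex ξ G) i j) = cf (ex ξ (d2 D G)) i j +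
      (if e ≤ i then ((j : ℂ) + 1) * cf (ex ξ G) (i - e) (j + 1) else 0) := by
  have h := congrArg (fun F => cf F i j) (chain D ξ G)
  rw [cf_dF] at h
  rw [h, hξ]
  unfold cf
  rw [Polynomial.coeff_add, map_add, Polynomial.coeff_C_mul, Polynomial.coeff_derivative]
  congr 1
  rw [PowerSeries.coeff_X_pow_mul']
  split_ifs with he
  · have : ((j : PowerSeries ℂ) + 1) = PowerSeries.C ((j : ℂ) + 1) := by
      rw [map_add, map_one, map_natCast]
    rw [this, mul_comm, PowerSeries.coeff_C_mul]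
  · rfl

end Pool.Agent.H24.QMDer
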