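import Mathlib
import Pool.Agent.H24.QMDer

set_option autoImplicit false

/-!
The value of a prime curve of degree `d` exceeds `d √t` by at most `1/2 + 1/(8√t)`.
-/

namespace Pool.Agent.H24.QMPrime

open Finset Pool.Agent.QMVal Pool.Agent.H24.QMDer

theorem exists_D (c : ℕ → ℂ) (hc : AlgebraicIndependent ℚ c) (e : ℕ) (he : 1 ≤ e) :
    ∃ D : Derivation ℤ ℂ ℂ, dps D (PowerSeries.X * PowerSeries.mk c) = PowerSeries.X ^ e := by
  obtain ⟨D, hD⟩ := DerExt.exists_der c hc (fun i => if i = e - 1 then 1 else 0)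
  refine ⟨D.restrictScalars ℤ, ?_⟩
  ext n
  rw [coeff_dps]
  have h1 : ∀ z : ℂ, (D.restrictScalars ℤ) z = D z := fun z => rfl
  rw [h1]
  cases n with
  | zero =>
    rw [PowerSeries.coeff_zero_X_mul, map_zero, PowerSeries.coeff_X_pow, if_neg (by omega)]
  | succ n =>
    rw [PowerSeries.coeff_succ_X_mul, PowerSeries.coeff_mk, hD, PowerSeries.coeff_X_pow]
    by_cases h : n = e - 1
    · rw [if_pos h, if_pos (by omega)]
    · rw [if_neg h, if_neg (by omega)]

theorem TD_d2 (D : Derivation ℤ ℂ ℂ) {n : ℕ} {G : Polynomial (Polynomial ℂ)} (hG : TD n G) :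
    TD n (d2 D G) := by
  intro i j h
  apply hG i j
  intro h0
  apply h
  rw [pc_d2, h0, map_zero]

/-- A polynomial of total degree zero is a constant. -/
theorem eq_const {G : Polynomial (Polynomial ℂ)} (hG : TD 0 G) :
    ∃ r : ℂ, G = Polynomial.C (Polynomial.C r) := by
  refine ⟨pc G 0 0, ?_⟩
  apply pc_ext
  intro i j
  by_cases h : pc G i j = 0
  · rw [h]
    by_cases hij : i = 0 ∧ j = 0
    · obtain ⟨rfl, rfl⟩ := hij
      rw [h]; simp [pc]
    · symm
      unfold pc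
      rw [Polynomial.coeff_C]
      split_ifs with hj
      · rw [Polynomial.coeff_C, if_neg (fun hi => hij ⟨hi, hj⟩)]
      · simp
  · have := hG i j h
    have hi : i = 0 := by omega
    have hj : j = 0 := by omega
    subst hi; subst hj
    simp [pc]

theorem pos_of_prime {G : Polynomial (Polynomial ℂ)} (hG : Prime G) {d : ℕ} (hd : HasTD d G) :
    1 ≤ d := by
  rcases Nat.eq_zero_or_pos d with h | h
  · exfalso
    subst h
    obtain ⟨r, hr⟩ := eq_const hd.1
    apply hG.not_isUnit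
    have hr0 : r ≠ 0 := by
      rintro rfl
      exact hG.ne_zero (by rw [hr]; simp)
    rw [hr]
    exact ((isUnit_iff_ne_zero.2 hr0).map Polynomial.C).map Polynomial.C
  · exact h

/-- The main inequality for prime curves. -/
theorem prime_ineq {c : ℕ → ℂ} (hc : AlgebraicIndependent ℚ c)
    (hmult : ∀ (d : ℕ) (G : Polynomial (Polynomial ℂ)), TD d G → G ≠ 0 →
      VLe 1 (ex (PowerSeries.X * PowerSeries.mk c) G) d)
    {t : ℝ} (_ht : 1 ≤ t) {d : ℕ} {G : Polynomial (Polynomial ℂ)} (hG : Prime G) (hd : HasTD d G)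
    {V0 : ℝ} (hV : VGe t (ex (PowerSeries.X * PowerSeries.mk c) G) V0) (hdV : (d : ℝ) < V0) :
    V0 * (V0 - 1) ≤ t * (d : ℝ) ^ 2 := by
  classical
  set ξ := PowerSeries.X * PowerSeries.mk c with hξ
  set F := ex ξ G with hF
  have hd1 : 1 ≤ d := pos_of_prime hG hd
  have hd1' : (1 : ℝ) ≤ d := by exact_mod_cast hd1
  set N := ⌈V0⌉₊ with hN
  set T : Finset (ℕ × ℕ) := ((range N) ×ˢ (range N)).filter
    (fun p => cf F p.1 p.2 ≠ 0 ∧ (p.1 : ℝ) + p.2 < V0) with hT
  have memT : ∀ i j : ℕ, cf F i j ≠ 0 → (i : ℝ) + j < V0 → (i, j) ∈ T := by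
    intro i j h1 h2
    rw [hT, mem_filter, mem_product, mem_range, mem_range]
    have h3 : V0 ≤ N := Nat.le_ceil V0
    have hi : (i : ℝ) < N := by
      have : (0 : ℝ) ≤ j := Nat.cast_nonneg j
      linarith
    have hj : (j : ℝ) < N := by
      have : (0 : ℝ) ≤ i := Nat.cast_nonneg i
      linarith
    exact ⟨⟨by exact_mod_cast hi, by exact_mod_cast hj⟩, h1, h2⟩
  have hTne : T.Nonempty := by
    obtain ⟨i, j, hij, hle⟩ := hmult d G hd.1 hG.ne_zero
    exact ⟨(i, j), memT i j hij (by linarith)⟩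
  obtain ⟨⟨i1, j1⟩, hmem, hmax⟩ := T.exists_max_image
    (fun p => (V0 - (p.1 : ℝ)) / (p.2 : ℝ)) hTne
  have hTprop : ∀ p ∈ T, cf F p.1 p.2 ≠ 0 ∧ (p.1 : ℝ) + p.2 < V0 ∧ 1 ≤ p.2 := by
    intro p hp
    rw [hT, mem_filter] at hp
    obtain ⟨_, h1, h2⟩ := hp
    refine ⟨h1, h2, ?_⟩
    by_contra hc0
    have h0 : p.2 = 0 := by omega
    have h3 := hV p.1 p.2 h1
    rw [h0] at h2 h3
    simp only [Nat.cast_zero, mul_zero, add_zero] at h2 h3
    linarith
  obtain ⟨hcf1, hlt1, hj1⟩ := hTprop _ hmem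
  simp only at hcf1 hlt1 hj1
  set t1 : ℝ := (V0 - (i1 : ℝ)) / (j1 : ℝ) with ht1
  have hj1' : (1 : ℝ) ≤ j1 := by exact_mod_cast hj1
  have hj1pos : (0 : ℝ) < j1 := by linarith
  have hatt : (i1 : ℝ) + t1 * j1 = V0 := by
    rw [ht1, div_mul_cancel₀ _ hj1pos.ne']
    ring
  have ht1gt : 1 < t1 := by
    rw [ht1, lt_div_iff₀ hj1pos]
    linarith
  have ht1le : t1 ≤ t := by
    rw [ht1, div_le_iff₀ hj1pos]
    have := hV i1 j1 hcf1
    linarith
  have ht1pos : 0 < t1 := by linarith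
  -- at `t1` the value is still at least `V0`
  have hV1 : VGe t1 F V0 := by
    intro i j hij
    by_cases hlt : (i : ℝ) + j < V0
    · have hm := memT i j hij hlt
      have h1 := hmax _ hm
      simp only at h1
      have h2 := (hTprop _ hm).2.2
      simp only at h2
      have h3 : (0 : ℝ) < j := by exact_mod_cast h2
      rw [div_le_iff₀ h3] at h1
      linarith
    · have h3 : (0 : ℝ) ≤ j := Nat.cast_nonneg j
      nlinarith
  -- the derivation
  set e : ℕ := ⌈t1⌉₊ - 1 with he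
  have hceil1 : 2 ≤ ⌈t1⌉₊ := by
    have : 1 < ⌈t1⌉₊ := Nat.lt_ceil.2 (by simpa using ht1gt)
    omega
  have he1 : 1 ≤ e := by omega
  have he2 : (e : ℝ) < t1 := by
    have h1 : e < ⌈t1⌉₊ := by omega
    exact Nat.lt_ceil.1 h1
  have he3 : t1 - 1 ≤ (e : ℝ) := by
    have h1 : t1 ≤ (⌈t1⌉₊ : ℝ) := Nat.le_ceil t1
    have h2 : ((e + 1 : ℕ) : ℝ) = (⌈t1⌉₊ : ℝ) := by
      congr 1
      omega
    push_cast at h2
    linarith
  obtain ⟨D, hD⟩ := exists_D c hc e he1
  have hchain := cf_chain D ξ e hD G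
  -- value of the derivative
  have hVD : VGe t1 (ex ξ (d2 D G)) (V0 - (t1 - e)) := by
    intro i j hij
    have h1 := hchain i j
    rw [← hF] at h1
    by_cases h2 : cf F i j = 0
    · rw [h2, map_zero] at h1
      by_cases h3 : e ≤ i
      · rw [if_pos h3] at h1
        have h4 : cf F (i - e) (j + 1) ≠ 0 := by
          intro h5
          rw [h5, mul_zero, add_zero] at h1
          exact hij h1.symm
        have h5 := hV1 _ _ h4
        push_cast [Nat.cast_sub h3] at h5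
        nlinarith
      · rw [if_neg h3, add_zero] at h1
        exact absurd h1.symm hij
    · have h5 := hV1 _ _ h2
      linarith
  -- not divisible
  have hnd : ¬ G ∣ d2 D G := by
    rintro ⟨H, hH⟩
    have hTD0 : TD 0 H := by
      apply TD.of_mul hd
      rw [← hH, add_zero]
      exact TD_d2 D hd.1
    obtain ⟨r, rfl⟩ := eq_const hTD0
    have h1 := hchain (i1 + e) (j1 - 1)
    have h2 : cf F (i1 + e) (j1 - 1) = 0 := by
      by_contra h3
      have h4 := hV1 _ _ h3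
      have h5 : ((j1 - 1 : ℕ) : ℝ) = (j1 : ℝ) - 1 := by
        rw [Nat.cast_sub hj1, Nat.cast_one]
      rw [h5] at h4
      push_cast at h4
      nlinarith
    rw [← hF, h2, map_zero, if_pos (by omega), hH] at h1
    have h3 : cf (ex ξ (G * Polynomial.C (Polynomial.C r))) (i1 + e) (j1 - 1) = 0 := by
      have h4 : G * Polynomial.C (Polynomial.C r) = r • G := by
        rw [mul_comm, Algebra.smul_def]
        rfl
      rw [h4, ex_smul, ← hF, h2, mul_zero]
    rw [h3, zero_add] at h1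
    have h6 : i1 + e - e = i1 := by omega
    have h7 : j1 - 1 + 1 = j1 := by omega
    rw [h6, h7] at h1
    have h8 : (((j1 - 1 : ℕ) : ℂ) + 1) ≠ 0 := by
      exact_mod_cast Nat.succ_ne_zero (j1 - 1)
    exact (mul_ne_zero h8 hcf1) h1.symm
  have hrel : IsRelPrime G (d2 D G) := (hG.irreducible.isRelPrime_iff_not_dvd).mpr hnd
  have hne : d2 D G ≠ 0 := by
    intro h0
    exact hnd (by rw [h0]; exact dvd_zero _)
  obtain ⟨k, hk⟩ := exists_hasTD hne
  have hkd : k ≤ d := hk.le (TD_d2 D hd.1)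
  have hkd' : (k : ℝ) ≤ d := by exact_mod_cast hkd
  have hbz := bezout ht1pos ξ hd hk hrel (a := V0) (b := V0 - (t1 - e)) (by linarith)
    (by linarith) hV1 hVD
  have h1 : V0 * (V0 - 1) ≤ V0 * (V0 - (t1 - e)) := by
    apply mul_le_mul_of_nonneg_left _ (by linarith)
    linarith
  have h2 : t1 * ((d : ℝ) * k) ≤ t * (d : ℝ) ^ 2 := by
    have h3 : (d : ℝ) * k ≤ (d : ℝ) ^ 2 := by nlinarith
    have h4 : 0 ≤ (d : ℝ) * k := by positivity
    nlinarith
  linarith

/-- The additive constant. -/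
noncomputable def B (t : ℝ) : ℝ := 1 / 2 + 1 / (8 * Real.sqrt t)

theorem B_nonneg {t : ℝ} : 0 ≤ B t := by
  unfold B
  positivity

theorem arith {s d V : ℝ} (hs : 1 ≤ s) (hd : 1 ≤ d) (h : V * (V - 1) ≤ s ^ 2 * d ^ 2) :
    V ≤ d * s + (1 / 2 + 1 / (8 * s)) := by
  by_contra hc
  push Not at hc
  have hs0 : 0 < s := by linarith
  set x := 1 / (8 * s) with hx
  have hx0 : 0 < x := by positivity
  have hxs : x * s = 1 / 8 := by
    rw [hx]
    field_simp
  have h1 : (d * s + (1 / 2 + x)) * (d * s + (1 / 2 + x) - 1) < V * (V - 1) := by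
    have h2 : 0 < V + (d * s + (1 / 2 + x)) - 1 := by nlinarith
    nlinarith
  have h2 : (d * s + (1 / 2 + x)) * (d * s + (1 / 2 + x) - 1) =
      s ^ 2 * d ^ 2 + 2 * d * (x * s) + x ^ 2 - 1 / 4 := by ring
  rw [h2, hxs] at h1
  nlinarith

theorem prime_VLe {c : ℕ → ℂ} (hc : AlgebraicIndependent ℚ c)
    (hmult : ∀ (d : ℕ) (G : Polynomial (Polynomial ℂ)), TD d G → G ≠ 0 →
      VLe 1 (ex (PowerSeries.X * PowerSeries.mk c) G) d)
    {t : ℝ} (ht : 1 ≤ t) {d : ℕ} {G : Polynomial (Polynomial ℂ)} (hG : Prime G)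
    (hd : HasTD d G) :
    VLe t (ex (PowerSeries.X * PowerSeries.mk c) G) (d * Real.sqrt t + B t) := by
  have ht0 : 0 < t := by linarith
  have hex : ex (PowerSeries.X * PowerSeries.mk c) G ≠ 0 := by
    intro h0
    exact hG.ne_zero (ex_injective _ (by rw [h0, map_zero]))
  obtain ⟨i0, j0, hij, hmin⟩ := exists_min ht0 hex
  have hV : VGe t (ex (PowerSeries.X * PowerSeries.mk c) G) ((i0 : ℝ) + t * j0) := by
    intro i' j' h'
    rcases hmin i' j' h' with h | ⟨h, _⟩ <;> linarith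
  refine ⟨i0, j0, hij, ?_⟩
  have hd1 : 1 ≤ d := pos_of_prime hG hd
  have hd1' : (1 : ℝ) ≤ d := by exact_mod_cast hd1
  have hs1 : 1 ≤ Real.sqrt t := by
    rw [Real.one_le_sqrt]
    exact ht
  by_cases hcase : (i0 : ℝ) + t * j0 ≤ d
  · have := B_nonneg (t := t)
    nlinarith
  · push Not at hcase
    have h1 := prime_ineq hc hmult ht hG hd hV hcase
    have h2 : Real.sqrt t ^ 2 = t := Real.sq_sqrt ht0.le
    exact arith hs1 hd1' (by rw [h2]; exact h1)

/-- Two prime curves of value larger than `e √t` are associated. -/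
theorem assoc_of_bad {t : ℝ} (ht : 0 < t) (ξ : PowerSeries ℂ) {p q : Polynomial (Polynomial ℂ)}
    (hp : Prime p) (hq : Prime q) {a b : ℕ} (ha : HasTD a p) (hb : HasTD b q)
    (h1 : ¬ VLe t (ex ξ p) (a * Real.sqrt t)) (h2 : ¬ VLe t (ex ξ q) (b * Real.sqrt t)) :
    Associated p q := by
  by_contra hna
  have hs : 0 < Real.sqrt t := Real.sqrt_pos.mpr ht
  have hs2 : Real.sqrt t * Real.sqrt t = t := Real.mul_self_sqrt ht.le
  have hex : ∀ {r : Polynomial (Polynomial ℂ)}, Prime r → ex ξ r ≠ 0 := by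
    intro r hr h0
    exact hr.ne_zero (ex_injective _ (by rw [h0, map_zero]))
  obtain ⟨V, hV, hV'⟩ := exists_gt_of_not_VLe ht (hex hp) h1
  obtain ⟨W, hW, hW'⟩ := exists_gt_of_not_VLe ht (hex hq) h2
  have hrel : IsRelPrime p q := by
    rw [hp.irreducible.isRelPrime_iff_not_dvd]
    intro hdvd
    exact hna (hp.irreducible.associated_of_dvd hq.irreducible hdvd)
  have hV0 : 0 ≤ (a : ℝ) * Real.sqrt t := by positivity
  have hW0 : 0 ≤ (b : ℝ) * Real.sqrt t := by positivity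
  have h3 := bezout ht ξ ha hb hrel (a := V) (b := W) (by linarith) (by linarith) hV' hW'
  have h4 : (a : ℝ) * Real.sqrt t * (b * Real.sqrt t) < V * W :=
    mul_lt_mul'' hV hW hV0 hW0
  have h5 : (a : ℝ) * Real.sqrt t * (b * Real.sqrt t) = t * (a * b) := by
    calc (a : ℝ) * Real.sqrt t * (b * Real.sqrt t) = (Real.sqrt t * Real.sqrt t) * (a * b) := by ring
      _ = t * (a * b) := by rw [hs2]
  linarith

theorem VLe_unit {t : ℝ} (ξ : PowerSeries ℂ) {G : Polynomial (Polynomial ℂ)} (hG : IsUnit G) :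
    HasTD 0 G ∧ VLe t (ex ξ G) 0 := by
  obtain ⟨p, hp, hpG⟩ := Polynomial.isUnit_iff.1 hG
  obtain ⟨r, hr, hrp⟩ := Polynomial.isUnit_iff.1 hp
  have hr0 : r ≠ 0 := hr.ne_zero
  subst hpG
  subst hrp
  constructor
  · constructor
    · intro i j h
      unfold pc at h
      rw [Polynomial.coeff_C] at h
      split_ifs at h with hj
      · rw [Polynomial.coeff_C] at h
        split_ifs at h with hi
        · omega
        · exact absurd rfl h
      · exact absurd (Polynomial.coeff_zero i) h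
    · exact ⟨0, 0, by simpa [pc] using hr0, rfl⟩
  · refine ⟨0, 0, ?_, by simp⟩
    rw [ex_C]
    simpa [cf] using hr0

/-- The decomposition bound. -/
theorem all_VLe {c : ℕ → ℂ} (hc : AlgebraicIndependent ℚ c)
    (hmult : ∀ (d : ℕ) (G : Polynomial (Polynomial ℂ)), TD d G → G ≠ 0 →
      VLe 1 (ex (PowerSeries.X * PowerSeries.mk c) G) d)
    {t : ℝ} (ht : 1 ≤ t) {n m : ℕ} {G : Polynomial (Polynomial ℂ)} (hG : G ≠ 0)
    (hn : TD n G) (hm : ∀ p : Polynomial (Polynomial ℂ), p ^ (m + 1) ∣ G → IsUnit p) :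
    VLe t (ex (PowerSeries.X * PowerSeries.mk c) G) (n * Real.sqrt t + B t * m) := by
  have ht0 : 0 < t := by linarith
  set ξ := PowerSeries.X * PowerSeries.mk c with hξ
  obtain ⟨C, hC, hgood⟩ : ∃ C : Polynomial (Polynomial ℂ), Prime C ∧
      ∀ p : Polynomial (Polynomial ℂ), Prime p → ¬ Associated p C → ∀ a, HasTD a p →
        VLe t (ex ξ p) (a * Real.sqrt t) := by
    by_cases h : ∃ (C : Polynomial (Polynomial ℂ)) (a : ℕ), Prime C ∧ HasTD a C ∧
        ¬ VLe t (ex ξ C) (a * Real.sqrt t)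
    · obtain ⟨C, a, hC, ha, hbad⟩ := h
      refine ⟨C, hC, fun p hp hna b hb => ?_⟩
      by_contra hbad'
      exact hna (assoc_of_bad ht0 ξ hp hC hb ha hbad' hbad)
    · push Not at h
      exact ⟨Polynomial.X, Polynomial.prime_X, fun p hp _ b hb => h p b hp hb⟩
  have key : ∀ G : Polynomial (Polynomial ℂ), G ≠ 0 →
      ∃ n k : ℕ, HasTD n G ∧ C ^ k ∣ G ∧ VLe t (ex ξ G) (n * Real.sqrt t + B t * k) := by
    intro G
    induction G using UniqueFactorizationMonoid.induction_on_prime with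
    | h₁ => intro h; exact absurd rfl h
    | h₂ x hx =>
      intro _
      obtain ⟨h1, h2⟩ := VLe_unit (t := t) ξ hx
      exact ⟨0, 0, h1, by simp, by simpa using h2⟩
    | h₃ a p ha hp ih =>
      intro _
      obtain ⟨n, k, h1, h2, h3⟩ := ih ha
      obtain ⟨b, hb⟩ := exists_hasTD hp.ne_zero
      by_cases hass : Associated p C
      · refine ⟨b + n, k + 1, hb.mul h1, ?_, ?_⟩
        · rw [pow_succ, mul_comm (C ^ k)]
          exact mul_dvd_mul hass.symm.dvd h2
        · rw [map_mul]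
          refine ((prime_VLe hc hmult ht hp hb).mul ht0 h3).mono (le_of_eq ?_)
          push_cast
          ring
      · refine ⟨b + n, k, hb.mul h1, h2.mul_left _, ?_⟩
        rw [map_mul]
        refine ((hgood p hp hass b hb).mul ht0 h3).mono (le_of_eq ?_)
        push_cast
        ring
  obtain ⟨n', k, h1, h2, h3⟩ := key G hG
  have hk : k ≤ m := by
    by_contra hlt
    push Not at hlt
    exact hC.not_isUnit (hm C ((pow_dvd_pow C (by omega)).trans h2))
  have hn' : n' ≤ n := h1.le hn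
  refine h3.mono ?_
  have hk' : (k : ℝ) ≤ m := by exact_mod_cast hk
  have hn'' : (n' : ℝ) ≤ n := by exact_mod_cast hn'
  have hs : 0 ≤ Real.sqrt t := Real.sqrt_nonneg t
  have hB := B_nonneg (t := t)
  have e1 : (n' : ℝ) * Real.sqrt t ≤ n * Real.sqrt t := mul_le_mul_of_nonneg_right hn'' hs
  have e2 : B t * k ≤ B t * m := mul_le_mul_of_nonneg_left hk' hB
  linarith

/-! ### Transfer to forms -/

theorem deh_inj {d : ℕ} {f g : MvPolynomial (Fin 3) ℂ} (hf : f.IsHomogeneous d)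
    (hg : g.IsHomogeneous d) (h : deh f = deh g) : f = g := by
  by_contra hne
  have h1 : (f - g).IsHomogeneous d := hf.sub hg
  exact deh_ne_zero h1 (sub_ne_zero.2 hne) (by rw [map_sub, h, sub_self])

theorem transfer {d m : ℕ} {f : MvPolynomial (Fin 3) ℂ} (hf : f.IsHomogeneous d) (hf0 : f ≠ 0)
    (hm : ∀ p : MvPolynomial (Fin 3) ℂ, p ^ (m + 1) ∣ f → IsUnit p) :
    ∀ p : Polynomial (Polynomial ℂ), p ^ (m + 1) ∣ deh f → IsUnit p := by
  rintro P ⟨Q, hQ⟩
  have hne := deh_ne_zero hf hf0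
  have hP0 : P ≠ 0 := by
    rintro rfl
    exact hne (by rw [hQ, zero_pow (by omega), zero_mul])
  have hQ0 : Q ≠ 0 := by
    rintro rfl
    exact hne (by rw [hQ, mul_zero])
  obtain ⟨a, ha⟩ := exists_hasTD hP0
  obtain ⟨b, hb⟩ := exists_hasTD hQ0
  have h1 := ((ha.pow (m + 1)).mul hb)
  rw [← hQ] at h1
  have h2 := h1.le (deh_TD hf)
  obtain ⟨p, hp, hpP⟩ := exists_hom ha.1
  obtain ⟨q, hq, hqQ⟩ := exists_hom (hb.1.mono (show b ≤ d - (m + 1) * a by omega))
  have h3 : (p ^ (m + 1) * q).IsHomogeneous d := by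
    have h4 := (hp.pow (m + 1)).mul hq
    have h5 : a * (m + 1) + (d - (m + 1) * a) = d := by
      rw [mul_comm a]
      omega
    rwa [h5] at h4
  have h4 : p ^ (m + 1) * q = f := by
    apply deh_inj h3 hf
    rw [map_mul, map_pow, hpP, hqQ, hQ]
  have h5 := hm p ⟨q, h4.symm⟩
  rw [← hpP]
  exact h5.map deh

/-! ### Very general germs -/

theorem exists_S : ∃ S : ℕ → MvPolynomial ℕ ℂ, (∀ k, S k ≠ 0) ∧
    ∀ c : ℕ → ℂ, (∀ k, MvPolynomial.eval c (S k) ≠ 0) → AlgebraicIndependent ℚ c := by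
  classical
  obtain ⟨u, hu⟩ : ∃ u : ℕ → MvPolynomial ℕ ℚ, Function.Surjective u := by
    have : Countable (MvPolynomial ℕ ℚ) := by
      rw [← Cardinal.mk_le_aleph0_iff]
      exact MvPolynomial.cardinalMk_le_max.trans (by simp)
    exact exists_surjective_nat _
  refine ⟨fun k => if u k = 0 then 1 else MvPolynomial.map (algebraMap ℚ ℂ) (u k), ?_, ?_⟩
  · intro k
    simp only
    split_ifs with h
    · exact one_ne_zero
    · intro h0
      apply h
      exact MvPolynomial.map_injective _ (algebraMap ℚ ℂ).injective (by rw [h0, map_zero])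
  · intro c hc
    rw [algebraicIndependent_iff]
    intro p hp
    by_contra hne
    obtain ⟨k, rfl⟩ := hu p
    have h1 := hc k
    simp only [if_neg hne] at h1
    apply h1
    rw [MvPolynomial.eval_map]
    exact hp

theorem additive :
    ∃ S : ℕ → MvPolynomial ℕ ℂ, (∀ k, S k ≠ 0) ∧
      ∀ c : ℕ → ℂ, (∀ k, MvPolynomial.eval c (S k) ≠ 0) →
        ∀ t : ℝ, 1 ≤ t → ∀ d m : ℕ, ∀ f : MvPolynomial (Fin 3) ℂ, f.IsHomogeneous d → f ≠ 0 →
          (∀ p : MvPolynomial (Fin 3) ℂ, p ^ (m + 1) ∣ f → IsUnit p) →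
          VLe t (fex c f) (d * Real.sqrt t + (1 / 2 + 1 / (8 * Real.sqrt t)) * m) := by
  obtain ⟨S1, hS1, h1⟩ := muHatLe_one
  obtain ⟨S2, hS2, h2⟩ := exists_S
  refine ⟨fun k => S1 k * S2 k, fun k => mul_ne_zero (hS1 k) (hS2 k), ?_⟩
  intro c hc t ht d m f hf hf0 hm
  have hc1 : ∀ k, MvPolynomial.eval c (S1 k) ≠ 0 := by
    intro k
    have := hc k
    rw [map_mul] at this
    exact left_ne_zero_of_mul this
  have hc2 : ∀ k, MvPolynomial.eval c (S2 k) ≠ 0 := by
    intro k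
    have := hc k
    rw [map_mul] at this
    exact right_ne_zero_of_mul this
  have hmult : ∀ (d : ℕ) (G : Polynomial (Polynomial ℂ)), TD d G → G ≠ 0 →
      VLe 1 (ex (PowerSeries.X * PowerSeries.mk c) G) d := by
    intro d G hG hG0
    obtain ⟨f, hf, rfl⟩ := exists_hom hG
    have hf0 : f ≠ 0 := by
      rintro rfl
      exact hG0 (map_zero _)
    rw [← fex_eq]
    obtain ⟨i, j, hij, hle⟩ := h1 c hc1 d f hf hf0
    exact ⟨i, j, hij, by simpa using hle⟩
  rw [fex_eq]
  exact all_VLe (h2 c hc2) hmult ht (deh_ne_zero hf hf0) (deh_TD hf) (transfer hf hf0 hm)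

end Pool.Agent.H24.QMPrime
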